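import Pool.Agent.H94.EH.M35

/-!
# Elliott-Halberstam for almost all residues in short intervals, every level `θ < 1`

For all residues `a` in an interval of length `H ≥ (log x)^C`, with at most `H/(log x)^c`
exceptions: in every range `(Q, 2Q]`, `Q ≤ x^θ`, all but `Q/(log x)^c` moduli `q` prime to `a` have
`max_{y ≤ x} |π(y;q,a) - π(y)/φ(q)| ≤ C (loglog x/log H + (loglog x)^2/log x) π(x)/φ(q)`, and the
total excess over `q ≤ x^θ` is at most `x/(log x)^c`.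
-/

set_option autoImplicit false

namespace Pool.Agent.Results.MP_a78e8f_nt.AlmostAllResidues

open Finset

/-- Primes `p ≤ y` in the class `a mod q`, minus `π(y)/φ(q)`. -/
noncomputable def err (y q : ℕ) (a : ZMod q) : ℝ :=
  (((Icc 1 y).filter (fun p : ℕ => Nat.Prime p ∧ ((p : ZMod q) = a))).card : ℝ)
    - (Nat.primeCounting y : ℝ) / (Nat.totient q : ℝ)

/-- The maximum of `|err y q a|` over the integers `0 ≤ y ≤ x`. -/
noncomputable def maxErr (x q a : ℕ) : ℝ :=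
  (range (x + 1)).sup' nonempty_range_add_one (fun y => |err y q (a : ZMod q)|)

/-- `C (loglog x/log H + (loglog x)^2/log x) π(x)/φ(q)`. -/
noncomputable def tol (C x H q : ℕ) : ℝ :=
  C * (Real.log (Real.log x) / Real.log H + Real.log (Real.log x) ^ 2 / Real.log x)
    * ((Nat.primeCounting x : ℝ) / (Nat.totient q : ℝ))

theorem result (θ : ℝ) (hθ : θ < 1) (c : ℕ) :
    ∃ C x₀ : ℕ, ∀ x : ℕ, x₀ ≤ x → ∀ a₀ H : ℕ, Real.log x ^ C ≤ H →
      ((a₀ + H : ℕ) : ℝ) ≤ (x : ℝ) ^ θ →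
      ∃ E : Finset ℕ, (E.card : ℝ) ≤ H / Real.log x ^ c ∧
        ∀ a ∈ Ioc a₀ (a₀ + H), a ∉ E →
          (∀ Q : ℕ, (Q : ℝ) ≤ (x : ℝ) ^ θ →
            (((Ioc Q (2 * Q)).filter (fun q => Nat.Coprime a q ∧
                tol C x H q < maxErr x q a)).card : ℝ) ≤ Q / Real.log x ^ c) ∧
          ∑ q ∈ (Icc 1 ⌊(x : ℝ) ^ θ⌋₊).filter (fun q => Nat.Coprime a q),
            max 0 (maxErr x q a - tol C x H q) ≤ x / Real.log x ^ c := by
  obtain ⟨C, x0, h⟩ := Pool.Agent.H35.U.main3 θ hθ c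
  refine ⟨C, x0, fun x hx a₀ H hH haH => ?_⟩
  obtain ⟨E, -, hE1, hE2⟩ := h x hx a₀ H hH haH
  exact ⟨E, hE1, hE2⟩

end Pool.Agent.Results.MP_a78e8f_nt.AlmostAllResidues
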