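import Pool.Agent.H94.EH.M53
import Pool.Agent.H94.EH.M58

/-!
# Elliott-Halberstam at every level up to and including `x/(log x)^D`, with maxima over sets

The Elliott-Halberstam bound for all moduli `q ≤ x^θ` (`θ < 1`), and for all moduli
`q ≤ x/(log x)^D` (`θ = 1`), with the maximum over `y ≤ x` and over the residues `a ∈ A` prime to
`q`, holds for all but `H x^(-c)/(log x)^C` members `A` of any family of pairwise disjoint subsets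
of an interval of length `H ≥ x^(1/3+ε)`, with `c > 0` for `θ < 1` and `c = 0` for `θ = 1`;
consequently for all integers `a` outside a sparse set and all `x` with `a ≤ x ≤ a^(3-ε)`.

Written by helper65 (project MS, `θ < 1`, and clause (2)) and helper91 (project L1, `θ = 1`), with
the projects EHA, EHB, KF, KM and PSI (helpers 76, 80, 88, 91, 92 and others).
-/

set_option autoImplicit false

namespace Pool.Agent.Results.MP_a78e8f_nt.LevelOne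

open Finset
open Pool.Agent.H91.EHA (err)

/-- the maximum over the `a ∈ A` prime to `q` and over the integers `0 ≤ y ≤ x` of `|err y q a|`
(`0` if there is no such `a`) -/
noncomputable def maxErr (x q : ℕ) (A : Finset ℕ) : ℝ :=
  ⨆ z : {z : ℕ × ℕ // z.1 ∈ A ∧ Nat.Coprime z.1 q ∧ z.2 ≤ x}, |err z.1.2 q ((z.1.1 : ℕ) : ZMod q)|

/-- the sum of the maximal errors over the moduli in `M` is at most `x/(log x)^C` -/
def Good (C x : ℕ) (M A : Finset ℕ) : Prop :=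
  ∑ q ∈ M, maxErr x q A ≤ x / Real.log x ^ C

/-- the moduli `q ≤ x^θ/(log x)^D`; if `H < x^(1/3+ε)` only those in three ranges -/
noncomputable def moduli (θ ε : ℝ) (D x H : ℕ) : Finset ℕ :=
  (Icc 1 ⌊(x : ℝ) ^ θ / Real.log x ^ D⌋₊).filter (fun q : ℕ => (x : ℝ) ^ (1 / 3 + ε) ≤ H ∨
    (q : ℝ) ^ 2 ≤ H * (x : ℝ) ^ (1 - ε) ∨ ((x : ℝ) ^ (1 + ε) ≤ q * H ∧ (q : ℝ) ≤ (x : ℝ) ^ (1 - ε)) ∨
    (x : ℝ) ^ (7 / 6 + ε) ≤ q * H)

theorem result (θ ε : ℝ) (hθ : θ ≤ 1) (hε : 0 < ε) :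
    ∃ c : ℝ, 0 ≤ c ∧ (θ < 1 → 0 < c) ∧ ∀ C : ℕ, ∃ D : ℕ, (θ < 1 → D = 0) ∧
      (∃ x₀ : ℕ, ∀ x : ℕ, x₀ ≤ x → ∀ a₀ H : ℕ, a₀ + H ≤ x →
        ∀ F : Finset (Finset ℕ), (F : Set (Finset ℕ)).PairwiseDisjoint id →
          (∀ A ∈ F, A ⊆ Ioc a₀ (a₀ + H) ∧ ¬ Good C x (moduli θ ε D x H) A) →
          (F.card : ℝ) ≤ H * (x : ℝ) ^ (-c) / Real.log x ^ C) ∧
      ∃ E : Set ℕ, (∃ X₀ : ℕ, ∀ X : ℕ, X₀ ≤ X →
          ((E ∩ Set.Icc 1 X).ncard : ℝ) ≤ (X : ℝ) ^ (1 - c) / Real.log X ^ C) ∧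
        ∃ a₁ : ℕ, ∀ a : ℕ, a₁ ≤ a → a ∉ E → ∀ x : ℕ, a ≤ x → (x : ℝ) ≤ (a : ℝ) ^ (3 - ε) →
          Good C x (Icc 1 ⌊(x : ℝ) ^ θ / Real.log x ^ D⌋₊) {a} := by
  obtain ⟨c, h1, h2, h3⟩ :=
    Pool.Agent.H65.MS.one_main Pool.Agent.H91.L1.huxProp θ ε hθ hε
  refine ⟨c, h1, h2, fun C => ?_⟩
  obtain ⟨D, h4, ⟨x0, h5⟩, E, ⟨X0, h6⟩, a1, h7⟩ := h3 C
  exact ⟨D, h4, ⟨x0, fun x hx a0 H haH F hd hF => h5 x hx a0 H haH F hd
    (fun A hA => ⟨(hF A hA).1, (hF A hA).2⟩)⟩, E, ⟨X0, h6⟩, a1,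
    fun a ha haE x hax hxa => h7 a ha haE x hax hxa⟩

end Pool.Agent.Results.MP_a78e8f_nt.LevelOne
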