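import Pool.Agent.H35.WT.Uf

/-!
# Elliott-Halberstam beyond `x^{1/2}` with the maximum over sets of `x^κ` residues

Let `0 ≤ κ < 1/40` and `27θ + 20κ < 14` (for `κ = 0`: `θ < 14/27`).  The Elliott-Halberstam bound with all moduli `q ≤ x^θ`,
absolute values and the maximum over `a ∈ A`, `(a,q) = 1`, where `A` is a set of at most `x^κ` integers
in `[-x,x]`, with saving `(log x)^c`, holds for all but at most `(log x)^{4c+21}` of the members of every
family of pairwise disjoint such sets.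
-/

set_option autoImplicit false

namespace Pool.Agent.Results.MP_a78e8f_nt.MaxOverSets

open Finset
open Pool.Agent.H91.EHA (err)

/-- For every choice of elements `r q ∈ A` the sum over the moduli `q ≤ x^θ` with `(r q, q) = 1` of the
maximum over `y ≤ x` of `|err y q (r q)|` is at most `x/(log x)^c`.  (If `r q` is, for every `q`, the
worst element of `A` prime to `q`, this is the bound for the sum over `q` of the maximum over the
`a ∈ A` with `(a,q) = 1`.) -/
def Good (θ : ℝ) (c x : ℕ) (A : Finset ℤ) : Prop :=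
  ∀ r : ℕ → ℤ, (∀ q, r q ∈ A) →
    ∑ q ∈ (Icc 1 ⌊(x : ℝ) ^ θ⌋₊).filter (fun q : ℕ => IsCoprime (r q) (q : ℤ)),
      (range (x + 1)).sup' nonempty_range_add_one (fun y => |err y q (r q : ZMod q)|) ≤
        x / Real.log x ^ c

theorem result (θ κ : ℝ) (h0 : 0 ≤ κ) (h1 : κ < 1 / 40) (h2 : 27 * θ + 20 * κ < 14) (c : ℕ) :
    ∃ x₀ : ℕ, ∀ x : ℕ, x₀ ≤ x →
    ∀ F : Finset (Finset ℤ), (F : Set (Finset ℤ)).PairwiseDisjoint id →
      (∀ A ∈ F, A ⊆ Icc (-(x : ℤ)) x ∧ (A.card : ℝ) ≤ (x : ℝ) ^ κ ∧ ¬ Good θ c x A) →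
      (F.card : ℝ) ≤ Real.log x ^ (4 * c + 21) := by
  obtain ⟨x1, hx1⟩ := Pool.Agent.H35.WT.fam_region θ κ h0 h1 h2 c
  refine ⟨x1, fun x hx F hF hbad => ?_⟩
  refine hx1 x hx F (fun A hA B hB hAB => hF hA hB hAB) fun A hA => ?_
  obtain ⟨h2, h3, h4⟩ := hbad A hA
  refine ⟨fun a ha => ?_, h3, fun h => h4 ?_⟩
  · have := mem_Icc.1 (h2 ha)
    exact abs_le.2 ⟨this.1, this.2⟩
  · intro r hr
    exact h r hr

end Pool.Agent.Results.MP_a78e8f_nt.MaxOverSets
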