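import Pool.Agent.H35.FL.Dy
import Pool.Agent.H35.FL.Qs

/-!
# Elliott-Halberstam up to `x/(log x)^D` outside few classes, and for most residue functions

1. For every `C` there is a `D` such that, if for every `q` the classes of a set `B(x,q)` of at most `(q^2/x) (log x)^D` classes
   are removed, the Elliott-Halberstam bound `x/(log x)^C` with the maximum over all remaining classes (and over `y ≤ x`) holds for
   the sum over all `q ≤ x/(log x)^D`.  The union of the sets `B(x,q)`, `x ≥ X`, has at most `c (q^2/X) (log X)^D` elements.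
2. Of any family of functions `q ↦ r(q) mod q` which pairwise seldom agree, at most `(Q^2/x) (log x)^D` violate the bound
   for the classes `r(q) mod q`, `q ≤ Q`.
3. Of any family of pairwise disjoint sets `A` of rational numbers of height at most `x^K` with at most `x^(1-ε)/Q`
   differences between any two of them, at most `Q^2 x^(ε-1)` violate the bound for the sum over the `q ≤ Q` of the maximum over
   the classes of the elements of `A`.
-/

set_option autoImplicit false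

namespace Pool.Agent.Results.MP_a78e8f_nt.ResidueFunctions

open Finset
open Pool.Agent.H91.EHA (err)

/-- the largest error up to `x` in the class `b` mod `q`: the maximum over the integers `0 ≤ y ≤ x` of
`|#{p ≤ y prime : p ≡ b mod q} - π(y)/φ(q)|` -/
noncomputable def maxErr (x q : ℕ) (b : ZMod q) : ℝ :=
  (range (x + 1)).sup' nonempty_range_add_one (fun y => |err y q b|)

/-- the sum of the largest errors in the classes `r(q) mod q` over the `q ≤ Q` prime to `r(q)` -/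
noncomputable def errSum (Q x : ℕ) (r : ℕ → ℤ) : ℝ :=
  ∑ q ∈ (Icc 1 Q).filter (fun q : ℕ => IsCoprime (r q) (q : ℤ)), maxErr x q (r q : ZMod q)

/-- the sum of the moduli `q ≤ Q` with `q^2 > T` and `r(q) ≡ s(q) mod q`, `(r(q), q) = 1` -/
noncomputable def agreement (T : ℝ) (Q : ℕ) (r s : ℕ → ℤ) : ℝ :=
  ∑ q ∈ (Icc 1 Q).filter (fun q : ℕ => T < (q : ℝ) ^ 2 ∧ (q : ℤ) ∣ r q - s q ∧ IsCoprime (r q) (q : ℤ)), (q : ℝ)

/-- the class of the rational number `α` mod `q` -/
def ratClass (q : ℕ) (α : ℚ) : ZMod q := (α.num : ZMod q) * (α.den : ZMod q)⁻¹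

/-- the bound for the `q ≤ Q` with the maximum over the rational numbers in `A` inside the sum: for every choice of
`α(q) ∈ A` the sum over the `q ≤ Q` prime to the numerator and the denominator of `α(q)` of the largest error
in the class of `α(q)` mod `q` is at most `x/(log x)^C` -/
def Good (Q C x : ℕ) (A : Finset ℚ) : Prop :=
  ∀ α : ℕ → ℚ, (∀ q, α q ∈ A) →
    ∑ q ∈ (Icc 1 Q).filter (fun q : ℕ => IsCoprime ((α q).num * ((α q).den : ℤ)) (q : ℤ)),
      maxErr x q (ratClass q (α q)) ≤ x / Real.log x ^ C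

theorem result (C : ℕ) :
    ∃ (D : ℕ) (c : ℝ) (B : ℕ → (q : ℕ) → Finset (ZMod q)),
      (∀ x q : ℕ, 2 ≤ x → ((B x q).card : ℝ) ≤ (q : ℝ) ^ 2 / x * Real.log x ^ D) ∧
      (∀ X q : ℕ, 2 ≤ X →
        ((⋃ x ∈ Set.Ici X, (B x q : Set (ZMod q))).ncard : ℝ) ≤ c * ((q : ℝ) ^ 2 / X * Real.log X ^ D)) ∧
      (∃ x₀ : ℕ, ∀ x Q : ℕ, x₀ ≤ x → (Q : ℝ) ≤ x / Real.log x ^ D →
        (∀ r : ℕ → ℤ, (∀ q ∈ Icc 1 Q, IsCoprime (r q) (q : ℤ) → (r q : ZMod q) ∉ B x q) →
          errSum Q x r ≤ x / Real.log x ^ C) ∧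
        (∀ (ι : Type) (r : ι → ℕ → ℤ) (F : Finset ι),
          (∀ i ∈ F, ∀ j ∈ F, i ≠ j → agreement (x / Real.log x ^ D) Q (r i) (r j) ≤ x / Real.log x ^ D) →
          (∀ i ∈ F, x / Real.log x ^ C < errSum Q x (r i)) →
          (F.card : ℝ) ≤ (Q : ℝ) ^ 2 / x * Real.log x ^ D)) ∧
      ∀ (ε : ℝ) (K : ℕ), 0 < ε → ∃ x₀ : ℕ, ∀ x Q : ℕ, x₀ ≤ x →
        ∀ F : Finset (Finset ℚ), (F : Set (Finset ℚ)).PairwiseDisjoint id →
          (∀ A ∈ F, ∀ α ∈ A, |α.num| ≤ (x : ℤ) ^ K ∧ (α.den : ℤ) ≤ (x : ℤ) ^ K) →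
          (∀ A ∈ F, ∀ A' ∈ F, A ≠ A' →
            (Q : ℝ) * ((A ×ˢ A').image (fun p => p.1 - p.2)).card ≤ (x : ℝ) ^ (1 - ε)) →
          (∀ A ∈ F, ¬ Good Q C x A) →
          (F.card : ℝ) ≤ (Q : ℝ) ^ 2 * (x : ℝ) ^ (ε - 1) := by
  obtain ⟨c, B, hB1, hB2, x1, h1⟩ := Pool.Agent.H35.FL.dy_sets_log C
  obtain ⟨x2, h2⟩ := Pool.Agent.H35.FL.few_fn_log C
  obtain ⟨x3, hx3⟩ := Filter.eventually_atTop.1 ((Real.tendsto_log_atTop.comp
    tendsto_natCast_atTop_atTop).eventually_ge_atTop (1 : ℝ))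
  refine ⟨Pool.Agent.H35.FL.meD (C + 4) + 1, c, B, hB1, hB2, ⟨max x1 (max x2 (max x3 1)), fun x Q hx hQ => ⟨?_, ?_⟩⟩, ?_⟩
  · intro r hr
    exact h1 x ((le_max_left _ _).trans hx) Q hQ r hr
  · intro ι r F hF hbad
    have hx' : max x2 (max x3 1) ≤ x := (le_max_right _ _).trans hx
    have hL1 : 1 ≤ Real.log x := hx3 x ((le_max_left _ _).trans ((le_max_right _ _).trans hx'))
    have hx1 : 1 ≤ x := (le_max_right _ _).trans ((le_max_right _ _).trans hx')
    have hx0 : (0 : ℝ) < x := by exact_mod_cast hx1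
    have hD0 : 0 < Real.log x ^ (Pool.Agent.H35.FL.meD (C + 4) + 1) := by positivity
    have hT0 : 0 < x / Real.log x ^ (Pool.Agent.H35.FL.meD (C + 4) + 1) := by positivity
    have hDle : Pool.Agent.H35.FL.meD (C + 3) ≤ Pool.Agent.H35.FL.meD (C + 4) + 1 := by
      unfold Pool.Agent.H35.FL.meD Pool.Agent.H35.FL.blD Pool.Agent.H35.FL.rgD Pool.Agent.H35.FL.omD
      omega
    have h3 := h2 x ((le_max_left _ _).trans hx') (x / Real.log x ^ (Pool.Agent.H35.FL.meD (C + 4) + 1)) Q hT0 (by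
      rw [div_mul_eq_mul_div, div_le_iff₀ hD0]
      exact mul_le_mul_of_nonneg_left (pow_le_pow_right₀ hL1 hDle) hx0.le) hQ ι r F hF hbad
    refine h3.trans (le_of_eq ?_)
    rw [inv_div]
    ring
  · intro ε K hε
    obtain ⟨x4, h4⟩ := Pool.Agent.H35.FL.few_rat_log ε hε C K
    refine ⟨x4, fun x Q hx F hdis hht hdiff hbad => ?_⟩
    refine h4 x hx Q F hht (fun A hA A' hA' hne => ⟨hdis hA hA' hne, hdiff A hA A' hA' hne⟩) fun A hA => ?_
    have h5 := hbad A hA
    unfold Good at h5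
    push Not at h5
    exact h5

end Pool.Agent.Results.MP_a78e8f_nt.ResidueFunctions
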